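import Mathlib

/-!
# Counting the pairs `(n, m)` with `|a ^ n - b ^ m| ≤ x` in a box
-/

set_option autoImplicit false

namespace Pool.Agent.Q47.NC

open Real

/-- the pairs `(n, m)` of natural numbers `≤ X` with `|a ^ n - b ^ m| ≤ x` -/
def pairs (a b X x : ℝ) : Set (ℕ × ℕ) :=
  {p | (p.1 : ℝ) ≤ X ∧ (p.2 : ℝ) ≤ X ∧ |a ^ p.1 - b ^ p.2| ≤ x}

theorem count (ρ : ℝ) (hρ : 1 < ρ) : ∃ C : ℝ, 0 < C ∧ ∀ a b X x K : ℝ, ρ ≤ a → ρ ≤ b → 2 ≤ x →
    log x ≤ X * log a → log x ≤ X * log b → 0 ≤ K →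
    (∀ n m : ℕ, (n : ℝ) ≤ X → (m : ℝ) ≤ X → |a ^ n - b ^ m| ≤ x → (n : ℝ) * log a ≤ K) →
    |((pairs a b X x).ncard : ℝ) - log x ^ 2 / (log a * log b)| ≤ C * (log x + K) := by
  classical
  obtain ⟨r, hr⟩ : ∃ r, r = log ρ := ⟨_, rfl⟩
  have hr0 : 0 < r := by rw [hr]; exact log_pos hρ
  have hl2 : 0 < log 2 := log_pos (by norm_num)
  have hl3 : 0 < log 3 := log_pos (by norm_num)
  obtain ⟨W, hW⟩ : ∃ W : ℕ, W = ⌊log 3 / r⌋₊ + 2 := ⟨_, rfl⟩
  have hWr : log 3 / r + 1 < W := by
    rw [hW]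
    push_cast
    have := Nat.lt_floor_add_one (log 3 / r)
    linarith
  have hW0 : (0 : ℝ) < W := by
    have : 0 < log 3 / r := by positivity
    linarith
  obtain ⟨C, hC⟩ : ∃ C : ℝ, C = (1 + W) * (2 / r) + (1 + W) ^ 2 / log 2 +
      (1 / r + 1 / log 2) * (W + 1) := ⟨_, rfl⟩
  have hC0 : 0 < C := by rw [hC]; positivity
  refine ⟨C, hC0, fun a b X x K ha hb hx hXa hXb hK h => ?_⟩
  obtain ⟨L, hL⟩ : ∃ L, L = log x := ⟨_, rfl⟩
  have hx0 : 0 < x := by linarith
  have hL2 : log 2 ≤ L := by rw [hL]; exact log_le_log (by norm_num) hx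
  have hL0 : 0 < L := by linarith
  have ha1 : 1 < a := lt_of_lt_of_le hρ ha
  have hb1 : 1 < b := lt_of_lt_of_le hρ hb
  have hla : r ≤ log a := by rw [hr]; exact log_le_log (by linarith) ha
  have hlb : r ≤ log b := by rw [hr]; exact log_le_log (by linarith) hb
  have hla0 : 0 < log a := by linarith
  have hlb0 : 0 < log b := by linarith
  obtain ⟨A, hA⟩ : ∃ A, A = L / log a := ⟨_, rfl⟩
  obtain ⟨B, hB⟩ : ∃ B, B = L / log b := ⟨_, rfl⟩
  have hA0 : 0 ≤ A := by rw [hA]; positivity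
  have hB0 : 0 ≤ B := by rw [hB]; positivity
  have hAr : A ≤ L / r := by rw [hA]; gcongr
  have hBr : B ≤ L / r := by rw [hB]; gcongr
  have hAB : log x ^ 2 / (log a * log b) = A * B := by
    rw [hA, hB, ← hL]
    field_simp
  have hAX : A ≤ X := by
    rw [hA, div_le_iff₀ hla0, hL]
    exact hXa
  have hBX : B ≤ X := by
    rw [hB, div_le_iff₀ hlb0, hL]
    exact hXb
  -- powers
  have lg : ∀ {c y : ℝ} {k : ℕ}, 1 < c → 0 < y → c ^ k ≤ y → (k : ℝ) * log c ≤ log y := by
    intro c y k hc hy h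
    rw [← Real.log_pow]
    exact Real.log_le_log (by positivity) h
  have gl : ∀ {c y : ℝ} {k : ℕ}, 1 < c → 0 < y → (k : ℝ) * log c ≤ log y → c ^ k ≤ y := by
    intro c y k hc hy h
    rw [← Real.log_pow] at h
    exact (Real.log_le_log_iff (by positivity) hy).1 h
  have lg' : ∀ {c y : ℝ} {k : ℕ}, 1 < c → 0 < y → y ≤ c ^ k → log y ≤ (k : ℝ) * log c := by
    intro c y k hc hy h
    rw [← Real.log_pow]
    exact Real.log_le_log hy h
  obtain ⟨N1, hN1⟩ : ∃ N1, N1 = ⌊A⌋₊ := ⟨_, rfl⟩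
  obtain ⟨M1, hM1⟩ : ∃ M1, M1 = ⌊B⌋₊ := ⟨_, rfl⟩
  have hN1le : (N1 : ℝ) ≤ A := by rw [hN1]; exact Nat.floor_le hA0
  have hM1le : (M1 : ℝ) ≤ B := by rw [hM1]; exact Nat.floor_le hB0
  have hN1lt : A < N1 + 1 := by rw [hN1]; exact Nat.lt_floor_add_one A
  have hM1lt : B < M1 + 1 := by rw [hM1]; exact Nat.lt_floor_add_one B
  -- the lower bound
  obtain ⟨S1, hS1⟩ : ∃ S1 : Finset (ℕ × ℕ), S1 = Finset.range (N1 + 1) ×ˢ Finset.range (M1 + 1) :=
    ⟨_, rfl⟩
  have hsub1 : (S1 : Set (ℕ × ℕ)) ⊆ pairs a b X x := by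
    rintro ⟨n, m⟩ hp
    rw [hS1, Finset.mem_coe, Finset.mem_product, Finset.mem_range, Finset.mem_range] at hp
    have h1 : (n : ℝ) ≤ N1 := by exact_mod_cast Nat.lt_succ_iff.1 hp.1
    have h2 : (m : ℝ) ≤ M1 := by exact_mod_cast Nat.lt_succ_iff.1 hp.2
    have h3 : (n : ℝ) * log a ≤ log x := by
      have : (n : ℝ) ≤ L / log a := by rw [← hA]; linarith
      rw [le_div_iff₀ hla0] at this
      rw [← hL]
      exact this
    have h4 : (m : ℝ) * log b ≤ log x := by
      have : (m : ℝ) ≤ L / log b := by rw [← hB]; linarith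
      rw [le_div_iff₀ hlb0] at this
      rw [← hL]
      exact this
    have h5 := gl ha1 hx0 h3
    have h6 := gl hb1 hx0 h4
    have h7 : 0 < a ^ n := by positivity
    have h8 : 0 < b ^ m := by positivity
    refine ⟨by show (n : ℝ) ≤ X; linarith, by show (m : ℝ) ≤ X; linarith, ?_⟩
    rw [abs_le]
    constructor <;> (show _ ≤ _; simp only []; linarith)
  -- the upper bound
  obtain ⟨f, hf⟩ : ∃ f : ℕ → ℕ, f = fun n : ℕ => ⌊((n : ℝ) * log a - log 2) / log b⌋₊ := ⟨_, rfl⟩
  obtain ⟨U, hU⟩ : ∃ U : Finset (ℕ × ℕ), U = Finset.range (N1 + 1 + W) ×ˢ Finset.range (M1 + 1 + W) :=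
    ⟨_, rfl⟩
  obtain ⟨T, hT⟩ : ∃ T : Finset (ℕ × ℕ), T = (Finset.range (⌊K / r⌋₊ + 1) ×ˢ Finset.range (W + 1)).image
      (fun p => (p.1, f p.1 + p.2)) := ⟨_, rfl⟩
  have hsub2 : pairs a b X x ⊆ ((U ∪ T : Finset (ℕ × ℕ)) : Set (ℕ × ℕ)) := by
    rintro ⟨n, m⟩ ⟨h1, h2, h3⟩
    have h1' : (n : ℝ) ≤ X := h1
    have h2' : (m : ℝ) ≤ X := h2
    have h3' : |a ^ n - b ^ m| ≤ x := h3
    have h4 := abs_le.1 h3'
    have h5 := h n m h1' h2' h3'
    rw [Finset.mem_coe, Finset.mem_union]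
    have han : 0 < a ^ n := by positivity
    rcases le_or_gt (a ^ n) (2 * x) with h6 | h6
    · left
      rw [hU, Finset.mem_product, Finset.mem_range, Finset.mem_range]
      have h7 := lg ha1 (by positivity) h6
      have h8 : b ^ m ≤ 3 * x := by linarith
      have h9 := lg hb1 (by positivity) h8
      rw [Real.log_mul (by norm_num) hx0.ne', ← hL] at h7 h9
      have h23 : log 2 ≤ log 3 := log_le_log (by norm_num) (by norm_num)
      constructor
      · show n < N1 + 1 + W
        have h10 : (n : ℝ) ≤ (log 2 + L) / log a := by rw [le_div_iff₀ hla0]; exact h7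
        have h11 : (log 2 + L) / log a ≤ log 3 / r + A := by
          rw [add_div, hA]
          gcongr
        have h12 : (n : ℝ) < (N1 + 1 + W : ℕ) := by
          push_cast
          linarith
        exact_mod_cast h12
      · show m < M1 + 1 + W
        have h10 : (m : ℝ) ≤ (log 3 + L) / log b := by rw [le_div_iff₀ hlb0]; exact h9
        have h11 : (log 3 + L) / log b ≤ log 3 / r + B := by
          rw [add_div, hB]
          gcongr
        have h12 : (m : ℝ) < (M1 + 1 + W : ℕ) := by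
          push_cast
          linarith
        exact_mod_cast h12
    · right
      rw [hT, Finset.mem_image]
      have hlow : a ^ n / 2 ≤ b ^ m := by linarith
      have hupp : b ^ m ≤ 3 * (a ^ n / 2) := by linarith
      have h7 := lg' hb1 (by positivity) hlow
      have h8 := lg hb1 (by positivity) hupp
      rw [Real.log_mul (by norm_num) (by positivity)] at h8
      rw [Real.log_div (by positivity) (by norm_num), Real.log_pow] at h7 h8
      obtain ⟨z, hz⟩ : ∃ z : ℝ, z = ((n : ℝ) * log a - log 2) / log b := ⟨_, rfl⟩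
      have hz0 : 0 ≤ z := by
        rw [hz]
        refine div_nonneg ?_ hlb0.le
        have h9 := lg' ha1 (by positivity) h6.le
        rw [Real.log_mul (by norm_num) hx0.ne', ← hL] at h9
        linarith
      have h9 : z ≤ m := by
        rw [hz, div_le_iff₀ hlb0]
        exact h7
      have h10 : (m : ℝ) ≤ z + log 3 / r := by
        have : (m : ℝ) ≤ z + log 3 / log b := by
          rw [hz, ← add_div, le_div_iff₀ hlb0]
          linarith
        have h11 : log 3 / log b ≤ log 3 / r := by gcongr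
        linarith
      have hfz : f n = ⌊z⌋₊ := by rw [hf, hz]
      have h11 : (f n : ℝ) ≤ z := by rw [hfz]; exact Nat.floor_le hz0
      have h12 : z < f n + 1 := by rw [hfz]; exact Nat.lt_floor_add_one z
      have h13 : f n ≤ m := by
        have : (f n : ℝ) ≤ m := by linarith
        exact_mod_cast this
      refine ⟨(n, m - f n), ?_, ?_⟩
      · rw [Finset.mem_product, Finset.mem_range, Finset.mem_range]
        constructor
        · show n < _
          have h14 : (n : ℝ) ≤ K / r := by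
            rw [le_div_iff₀ hr0]
            refine le_trans ?_ h5
            gcongr
          exact Nat.lt_succ_iff.2 (Nat.le_floor h14)
        · show m - f n < _
          have h14 : ((m - f n : ℕ) : ℝ) < (W + 1 : ℕ) := by
            rw [Nat.cast_sub h13]
            push_cast
            linarith
          exact_mod_cast h14
      · show (n, f n + (m - f n)) = (n, m)
        rw [Nat.add_sub_cancel' h13]
  have hfin : (pairs a b X x).Finite := (Finset.finite_toSet _).subset hsub2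
  have hc1 : ((N1 : ℝ) + 1) * (M1 + 1) ≤ ((pairs a b X x).ncard : ℝ) := by
    have h1 := Set.ncard_le_ncard hsub1 hfin
    rw [Set.ncard_coe_finset, hS1, Finset.card_product, Finset.card_range, Finset.card_range] at h1
    exact_mod_cast h1
  have hc2 : ((pairs a b X x).ncard : ℝ) ≤ ((N1 : ℝ) + 1 + W) * (M1 + 1 + W) +
      (⌊K / r⌋₊ + 1) * (W + 1) := by
    have h1 := Set.ncard_le_ncard hsub2 (Finset.finite_toSet _)
    rw [Set.ncard_coe_finset] at h1
    have h2 := h1.trans (Finset.card_union_le _ _)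
    have h3 : T.card ≤ (⌊K / r⌋₊ + 1) * (W + 1) := by
      rw [hT]
      refine Finset.card_image_le.trans ?_
      rw [Finset.card_product, Finset.card_range, Finset.card_range]
    have h4 : U.card = (N1 + 1 + W) * (M1 + 1 + W) := by
      rw [hU, Finset.card_product, Finset.card_range, Finset.card_range]
    rw [h4] at h2
    have h5 : (pairs a b X x).ncard ≤ (N1 + 1 + W) * (M1 + 1 + W) + (⌊K / r⌋₊ + 1) * (W + 1) := by
      omega
    exact_mod_cast h5
  have hKr : ((⌊K / r⌋₊ : ℕ) : ℝ) ≤ K / r := Nat.floor_le (by positivity)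
  rw [hAB, abs_le, ← hL]
  have hpos : 0 ≤ C * (L + K) := by positivity
  constructor
  · have : A * B ≤ ((N1 : ℝ) + 1) * (M1 + 1) := by
      gcongr
    linarith
  · have h1 : ((N1 : ℝ) + 1 + W) * (M1 + 1 + W) ≤ (A + 1 + W) * (B + 1 + W) := by gcongr
    have h2 : ((⌊K / r⌋₊ : ℕ) + 1 : ℝ) * (W + 1) ≤ (K / r + 1) * (W + 1) := by gcongr
    have h3 : (A + 1 + W) * (B + 1 + W) = A * B + (1 + W) * (A + B) + (1 + W) ^ 2 := by ring
    have h4 : (1 + (W : ℝ)) * (A + B) ≤ (1 + W) * (2 / r) * L := by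
      have : A + B ≤ 2 / r * L := by
        have e : 2 / r * L = L / r + L / r := by ring
        rw [e]
        linarith
      rw [mul_assoc]
      gcongr
    have h5 : (1 : ℝ) ≤ L / log 2 := by rw [le_div_iff₀ hl2]; linarith
    have h6 : (1 + (W : ℝ)) ^ 2 ≤ (1 + W) ^ 2 / log 2 * L := by
      have e : (1 + (W : ℝ)) ^ 2 / log 2 * L = (1 + W) ^ 2 * (L / log 2) := by ring
      rw [e]
      exact le_mul_of_one_le_right (by positivity) h5
    have h7 : (K / r + 1) * ((W : ℝ) + 1) ≤ (1 / r + 1 / log 2) * (W + 1) * (L + K) := by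
      have h8 : K / r + 1 ≤ (1 / r + 1 / log 2) * (L + K) := by
        have e : (1 / r + 1 / log 2) * (L + K) = K / r + L / log 2 + (L / r + K / log 2) := by ring
        rw [e]
        have : 0 ≤ L / r + K / log 2 := by positivity
        linarith
      calc (K / r + 1) * ((W : ℝ) + 1) ≤ (1 / r + 1 / log 2) * (L + K) * (W + 1) := by gcongr
        _ = _ := by ring
    have h9 : (1 + (W : ℝ)) * (2 / r) * L ≤ (1 + W) * (2 / r) * (L + K) := by
      gcongr
      linarith
    have h10 : (1 + (W : ℝ)) ^ 2 / log 2 * L ≤ (1 + W) ^ 2 / log 2 * (L + K) := by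
      gcongr
      linarith
    have h11 : C * (L + K) = (1 + W) * (2 / r) * (L + K) + (1 + W) ^ 2 / log 2 * (L + K) +
      (1 / r + 1 / log 2) * (W + 1) * (L + K) := by
      rw [hC]
      ring
    linarith

end Pool.Agent.Q47.NC
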