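import Pool.Agent.H297R2.LPM.Main

/-!
# Small integer relations between `1`, `log 2` and one more real number are multiples of one relation
-/

set_option autoImplicit false

namespace Pool.Agent.Q47.NC

open Real

/-- the value of the relation `u` -/
noncomputable def lf (τ : ℝ) (u : Fin 3 → ℤ) : ℝ := u 0 + u 1 * log 2 + u 2 * τ

theorem direction : ∃ Y₀ : ℝ, 2 ≤ Y₀ ∧ ∀ τ Y : ℝ, Y₀ ≤ Y → ∃ v : Fin 3 → ℤ, v 2 ≠ 0 ∧
    ∀ u : Fin 3 → ℤ, u ≠ 0 → (∀ i, |(u i : ℝ)| ≤ Y) → |lf τ u| ≤ (Y ^ 448)⁻¹ →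
      u 2 ≠ 0 ∧ ∀ i, v 2 * u i = u 2 * v i := by
  obtain ⟨c, hc, hmeas⟩ := Pool.Agent.LP.MS.measure
  have meas : ∀ a b : ℤ, b ≠ 0 → c / |(b : ℝ)| ^ 223 ≤ |(a : ℝ) + b * log 2| := by
    intro a b hb
    have h := hmeas a b 0 (Or.inl hb)
    have h1 : max |(b : ℝ)| |((0 : ℤ) : ℝ)| = |(b : ℝ)| := by
      rw [Int.cast_zero, abs_zero]
      exact max_eq_left (abs_nonneg _)
    rw [h1, Int.cast_zero, zero_mul, add_zero] at h
    exact h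
  refine ⟨max 3 (2 ^ 224 / c + 1), le_max_of_le_left (by norm_num), fun τ Y hY => ?_⟩
  have hY3 : 3 ≤ Y := (le_max_left _ _).trans hY
  have hYc : 2 ^ 224 / c + 1 ≤ Y := (le_max_right _ _).trans hY
  have hY0 : 0 < Y := by linarith
  have hY1 : 1 ≤ Y := by linarith
  have hcY : 2 ^ 224 < c * Y := by
    have : 2 ^ 224 / c < Y := by linarith
    rw [div_lt_iff₀ hc] at this
    linarith
  -- relations between `1` and `log 2`
  have key : ∀ z0 z1 : ℤ, |(z1 : ℝ)| ≤ 2 * Y ^ 2 → |(z0 : ℝ) + z1 * log 2| ≤ 2 * Y * (Y ^ 448)⁻¹ →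
      z1 = 0 ∧ z0 = 0 := by
    intro z0 z1 h1 h2
    have hz1 : z1 = 0 := by
      by_contra hne
      have h3 := (meas z0 z1 hne).trans h2
      have hpos : 0 < |(z1 : ℝ)| := abs_pos.2 (by exact_mod_cast hne)
      have h4 : |(z1 : ℝ)| ^ 223 ≤ (2 * Y ^ 2) ^ 223 := pow_le_pow_left₀ hpos.le h1 223
      have h5 : c / (2 * Y ^ 2) ^ 223 ≤ 2 * Y * (Y ^ 448)⁻¹ := by
        refine le_trans ?_ h3
        gcongr
      rw [div_le_iff₀ (by positivity)] at h5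
      have e : 2 * Y * (Y ^ 448)⁻¹ * (2 * Y ^ 2) ^ 223 = 2 ^ 224 * Y⁻¹ := by
        field_simp
      rw [e, ← div_eq_mul_inv, le_div_iff₀ hY0] at h5
      linarith
    refine ⟨hz1, ?_⟩
    rw [hz1, Int.cast_zero, zero_mul, add_zero] at h2
    have h3 : 2 * Y * (Y ^ 448)⁻¹ < 1 := by
      rw [← div_eq_mul_inv, div_lt_one (by positivity)]
      have h4 : Y ^ 2 ≤ Y ^ 448 := pow_le_pow_right₀ hY1 (by norm_num)
      nlinarith
    have h4 : |(z0 : ℝ)| < 1 := lt_of_le_of_lt h2 h3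
    have h5 : |z0| < 1 := by exact_mod_cast h4
    exact Int.abs_lt_one_iff.1 h5
  have hYY : Y ≤ 2 * Y ^ 2 := by nlinarith
  have hinv : 0 < (Y ^ 448)⁻¹ := by positivity
  -- a small relation involves the third number
  have third : ∀ u : Fin 3 → ℤ, u ≠ 0 → (∀ i, |(u i : ℝ)| ≤ Y) → |lf τ u| ≤ (Y ^ 448)⁻¹ → u 2 ≠ 0 := by
    intro u hu h1 h2 h0
    have h3 : |((u 0 : ℤ) : ℝ) + (u 1 : ℤ) * log 2| ≤ 2 * Y * (Y ^ 448)⁻¹ := by
      have e : ((u 0 : ℤ) : ℝ) + (u 1 : ℤ) * log 2 = lf τ u := by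
        rw [lf, h0]
        simp
      rw [e]
      refine h2.trans (le_mul_of_one_le_left hinv.le (by linarith))
    obtain ⟨h4, h5⟩ := key (u 0) (u 1) ((h1 1).trans hYY) h3
    apply hu
    ext i
    fin_cases i
    · exact h5
    · exact h4
    · exact h0
  -- two small relations are proportional
  have two : ∀ u w : Fin 3 → ℤ, (∀ i, |(u i : ℝ)| ≤ Y) → |lf τ u| ≤ (Y ^ 448)⁻¹ →
      (∀ i, |(w i : ℝ)| ≤ Y) → |lf τ w| ≤ (Y ^ 448)⁻¹ → ∀ i, w 2 * u i = u 2 * w i := by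
    intro u w h1 h2 h3 h4
    have h5 : |((w 2 * u 1 - u 2 * w 1 : ℤ) : ℝ)| ≤ 2 * Y ^ 2 := by
      push_cast
      calc |(w 2 : ℝ) * u 1 - u 2 * w 1| ≤ |(w 2 : ℝ) * u 1| + |(u 2 : ℝ) * w 1| := abs_sub _ _
        _ = |(w 2 : ℝ)| * |(u 1 : ℝ)| + |(u 2 : ℝ)| * |(w 1 : ℝ)| := by rw [abs_mul, abs_mul]
        _ ≤ Y * Y + Y * Y := by gcongr <;> first | exact h3 _ | exact h1 _
        _ = 2 * Y ^ 2 := by ring
    have h6 : |((w 2 * u 0 - u 2 * w 0 : ℤ) : ℝ) + ((w 2 * u 1 - u 2 * w 1 : ℤ) : ℝ) * log 2| ≤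
        2 * Y * (Y ^ 448)⁻¹ := by
      have e : ((w 2 * u 0 - u 2 * w 0 : ℤ) : ℝ) + ((w 2 * u 1 - u 2 * w 1 : ℤ) : ℝ) * log 2 =
          w 2 * lf τ u - u 2 * lf τ w := by
        rw [lf, lf]
        push_cast
        ring
      rw [e]
      calc |(w 2 : ℝ) * lf τ u - u 2 * lf τ w| ≤ |(w 2 : ℝ) * lf τ u| + |(u 2 : ℝ) * lf τ w| := abs_sub _ _
        _ = |(w 2 : ℝ)| * |lf τ u| + |(u 2 : ℝ)| * |lf τ w| := by rw [abs_mul, abs_mul]
        _ ≤ Y * (Y ^ 448)⁻¹ + Y * (Y ^ 448)⁻¹ := by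
            gcongr
            · exact h3 2
            · exact h1 2
        _ = 2 * Y * (Y ^ 448)⁻¹ := by ring
    obtain ⟨h7, h8⟩ := key _ _ h5 h6
    intro i
    fin_cases i
    · show w 2 * u 0 = u 2 * w 0
      linarith
    · show w 2 * u 1 = u 2 * w 1
      linarith
    · show w 2 * u 2 = u 2 * w 2
      ring
  by_cases hex : ∃ w : Fin 3 → ℤ, w ≠ 0 ∧ (∀ i, |(w i : ℝ)| ≤ Y) ∧ |lf τ w| ≤ (Y ^ 448)⁻¹
  · obtain ⟨w, hw0, hw1, hw2⟩ := hex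
    exact ⟨w, third w hw0 hw1 hw2, fun u hu h1 h2 => ⟨third u hu h1 h2, two u w h1 h2 hw1 hw2⟩⟩
  · refine ⟨![0, 1, 1], by simp, fun u hu h1 h2 => ?_⟩
    exact absurd ⟨u, hu, h1, h2⟩ hex

/-- the determinant of three integer vectors -/
theorem det3 (v p q : Fin 3 → ℤ) : Matrix.det (Matrix.of ![v, p, q]) =
    v 0 * (p 1 * q 2 - p 2 * q 1) - v 1 * (p 0 * q 2 - p 2 * q 0) + v 2 * (p 0 * q 1 - p 1 * q 0) := by
  rw [Matrix.det_fin_three]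
  simp [Matrix.of_apply]
  ring

/-- combinations of `p` and `q` are not small relations if `v`, `p`, `q` are independent -/
theorem not_small (v p q : Fin 3 → ℤ) (hd : Matrix.det (Matrix.of ![v, p, q]) ≠ 0) (n m : ℤ) (hn : n ≠ 0)
    (u : Fin 3 → ℤ) (hu : ∀ i, u i = n * p i - m * q i) :
    u ≠ 0 ∧ ¬ (u 2 ≠ 0 ∧ ∀ i, v 2 * u i = u 2 * v i) := by
  rw [det3] at hd
  constructor
  · intro h0
    have h : ∀ i, n * p i - m * q i = 0 := fun i => by rw [← hu i, h0]; rfl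
    apply hd
    have h1 : n * (v 0 * (p 1 * q 2 - p 2 * q 1) - v 1 * (p 0 * q 2 - p 2 * q 0) +
        v 2 * (p 0 * q 1 - p 1 * q 0)) = 0 := by
      linear_combination (-(v 1) * q 2 + v 2 * q 1) * h 0 + (v 0 * q 2 - v 2 * q 0) * h 1 +
        (-(v 0) * q 1 + v 1 * q 0) * h 2
    rcases mul_eq_zero.1 h1 with h2 | h2
    · exact absurd h2 hn
    · exact h2
  · rintro ⟨h2, h3⟩
    apply hd
    have h1 : u 2 * (v 0 * (p 1 * q 2 - p 2 * q 1) - v 1 * (p 0 * q 2 - p 2 * q 0) +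
        v 2 * (p 0 * q 1 - p 1 * q 0)) = 0 := by
      have e0 := h3 0
      have e1 := h3 1
      have e : u 2 * (v 0 * (p 1 * q 2 - p 2 * q 1) - v 1 * (p 0 * q 2 - p 2 * q 0) +
          v 2 * (p 0 * q 1 - p 1 * q 0)) = v 2 * (u 0 * (p 1 * q 2 - p 2 * q 1) -
          u 1 * (p 0 * q 2 - p 2 * q 0) + u 2 * (p 0 * q 1 - p 1 * q 0)) := by
        linear_combination (-(p 1 * q 2 - p 2 * q 1)) * e0 + (p 0 * q 2 - p 2 * q 0) * e1
      rw [e, hu 0, hu 1, hu 2]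
      ring
    rcases mul_eq_zero.1 h1 with h4 | h4
    · exact absurd h4 h2
    · exact h4

end Pool.Agent.Q47.NC
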