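import Pool.Agent.Q47.NC.Cnt
import Pool.Agent.Q47.NC.Sep

/-!
# The near coincidences of powers in the group generated by `e`, `2` and a positive real number
-/

set_option autoImplicit false

namespace Pool.Agent.Q47.NC

open Real

/-- the element `e ^ (p 0) * 2 ^ (p 1) * t ^ (p 2)` -/
noncomputable def el (t : ℝ) (p : Fin 3 → ℤ) : ℝ := exp (p 0) * 2 ^ (p 1) * t ^ (p 2)

/-- the estimate for the number of the near coincidences in the box of size `X` -/
def Estimate (C X a b : ℝ) : Prop :=
  ∀ x : ℝ, 2 ≤ x → log x ≤ X * log a → log x ≤ X * log b →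
    |((pairs a b X x).ncard : ℝ) - log x ^ 2 / (log a * log b)| ≤ C * (log x + log X)

theorem log_el {t : ℝ} (ht : 0 < t) (p : Fin 3 → ℤ) : log (el t p) = lf (log t) p := by
  rw [el, lf, Real.log_mul (by positivity) (by positivity), Real.log_mul (by positivity) (by positivity),
    Real.log_exp, Real.log_zpow, Real.log_zpow]

theorem main (ρ : ℝ) (hρ : 1 < ρ) : ∃ C X₀ : ℝ, 2 ≤ X₀ ∧ ∀ t : ℝ, 0 < t → ∀ X : ℝ, X₀ ≤ X →
    ∃ v : Fin 3 → ℤ, v 2 ≠ 0 ∧ ∀ p q : Fin 3 → ℤ, (∀ i, |(p i : ℝ)| ≤ X) → (∀ i, |(q i : ℝ)| ≤ X) →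
      Matrix.det (Matrix.of ![v, p, q]) ≠ 0 → ρ ≤ el t p → ρ ≤ el t q → Estimate C X (el t p) (el t q) := by
  obtain ⟨C, hC, hcount⟩ := count ρ hρ
  obtain ⟨Y₀, hY₀, hdir⟩ := direction
  refine ⟨1345 * C, max 2 Y₀, le_max_left _ _, fun t ht X hX => ?_⟩
  have hX2 : 2 ≤ X := (le_max_left _ _).trans hX
  have hXY : Y₀ ≤ X := (le_max_right _ _).trans hX
  obtain ⟨Y, hY⟩ : ∃ Y, Y = 2 * X ^ 2 := ⟨_, rfl⟩
  have hYX : X ≤ Y := by rw [hY]; nlinarith
  have hY1 : 1 ≤ Y := by linarith
  have hY0 : 0 < Y := by linarith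
  obtain ⟨v, hv, hsmall⟩ := hdir (log t) Y (hXY.trans hYX)
  refine ⟨v, hv, fun p q hp hq hd hpρ hqρ x hx hxa hxb => ?_⟩
  obtain ⟨a, ha⟩ : ∃ a, a = el t p := ⟨_, rfl⟩
  obtain ⟨b, hb⟩ : ∃ b, b = el t q := ⟨_, rfl⟩
  have hla : log a = lf (log t) p := by rw [ha]; exact log_el ht p
  have hlb : log b = lf (log t) q := by rw [hb]; exact log_el ht q
  rw [← ha] at hpρ hxa
  rw [← hb] at hqρ hxb
  rw [← ha, ← hb]
  have ha1 : 1 < a := lt_of_lt_of_le hρ hpρ
  have hb1 : 1 < b := lt_of_lt_of_le hρ hqρ
  have hx0 : 0 < x := by linarith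
  have hl2 : 0 < log 2 := log_pos (by norm_num)
  have hlx : log 2 ≤ log x := log_le_log (by norm_num) hx
  have hlX : log 2 ≤ log X := log_le_log (by norm_num) hX2
  have hlY : log Y ≤ 3 * log X := by
    rw [hY, Real.log_mul (by norm_num) (by positivity), Real.log_pow]
    push_cast
    linarith
  have hlY0 : 0 ≤ log Y := log_nonneg hY1
  obtain ⟨K, hK⟩ : ∃ K, K = log 2 + log x + 448 * log Y := ⟨_, rfl⟩
  have hKe : K = log (2 * x * Y ^ 448) := by
    rw [hK, Real.log_mul (by positivity) (by positivity), Real.log_mul (by norm_num) (by positivity),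
      Real.log_pow]
    push_cast
    ring
  have hK0 : 0 ≤ K := by rw [hK]; linarith
  have hbox : ∀ n m : ℕ, (n : ℝ) ≤ X → (m : ℝ) ≤ X → |a ^ n - b ^ m| ≤ x → (n : ℝ) * log a ≤ K := by
    intro n m hn hm h
    have h4 := abs_le.1 h
    have han : 0 < a ^ n := by positivity
    have hbm : 0 < b ^ m := by positivity
    rcases le_or_gt (a ^ n) (2 * x) with h6 | h6
    · have h7 : (n : ℝ) * log a ≤ log (2 * x) := by
        rw [← Real.log_pow]
        exact Real.log_le_log han h6
      rw [Real.log_mul (by norm_num) hx0.ne'] at h7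
      rw [hK]
      linarith
    · have hn0 : (n : ℤ) ≠ 0 := by
        intro h0
        have : n = 0 := by exact_mod_cast h0
        rw [this, pow_zero] at h6
        linarith
      obtain ⟨w, hw⟩ : ∃ w, w = b ^ m / a ^ n := ⟨_, rfl⟩
      have hw0 : 0 < w := by rw [hw]; positivity
      have hlw : log w = m * log b - n * log a := by
        rw [hw, Real.log_div hbm.ne' han.ne', Real.log_pow, Real.log_pow]
      have hw1 : |w - 1| ≤ x / a ^ n := by
        have e : w - 1 = -((a ^ n - b ^ m) / a ^ n) := by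
          rw [hw]
          field_simp
          ring
        rw [e, abs_neg, abs_div, abs_of_pos han]
        gcongr
      have hxa' : x / a ^ n < 1 / 2 := by
        rw [div_lt_div_iff₀ han (by norm_num)]
        linarith
      have hw2 := abs_le.1 hw1
      have hwhalf : 1 / 2 < w := by linarith [hw2.1]
      have hup : log w ≤ x / a ^ n := by
        have := Real.log_le_sub_one_of_pos hw0
        linarith [hw2.2]
      have hlow : -(2 * (x / a ^ n)) ≤ log w := by
        have h7 := Real.one_sub_inv_le_log_of_pos hw0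
        have h8 : -(2 * (x / a ^ n)) ≤ 1 - w⁻¹ := by
          have e : 1 - w⁻¹ = (w - 1) * w⁻¹ := by
            field_simp
          rw [e]
          have h9 : w⁻¹ ≤ 2 := by
            rw [inv_le_comm₀ hw0 (by norm_num)]
            linarith
          have h10 : 0 < w⁻¹ := by positivity
          have h11 : 0 < x / a ^ n := by positivity
          nlinarith [hw2.1]
        linarith
      have habs : |log w| ≤ 2 * (x / a ^ n) := by
        have h11 : 0 < x / a ^ n := by positivity
        rw [abs_le]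
        constructor <;> linarith
      -- the relation
      obtain ⟨u, hu⟩ : ∃ u : Fin 3 → ℤ, u = fun i => (n : ℤ) * p i - (m : ℤ) * q i := ⟨_, rfl⟩
      have hui : ∀ i, u i = (n : ℤ) * p i - (m : ℤ) * q i := fun i => by rw [hu]
      have hlu : lf (log t) u = -log w := by
        rw [hlw, hla, hlb, lf, lf, lf, hui, hui, hui]
        push_cast
        ring
      have hbd : ∀ i, |(u i : ℝ)| ≤ Y := by
        intro i
        rw [hui]
        push_cast
        calc |(n : ℝ) * p i - m * q i| ≤ |(n : ℝ) * p i| + |(m : ℝ) * q i| := abs_sub _ _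
          _ = n * |(p i : ℝ)| + m * |(q i : ℝ)| := by
              rw [abs_mul, abs_mul, Nat.abs_cast, Nat.abs_cast]
          _ ≤ X * X + X * X := by
              gcongr
              · exact hp i
              · exact hq i
          _ = Y := by rw [hY]; ring
      obtain ⟨hu0, hnot⟩ := not_small v p q hd n m hn0 u hui
      have hbig : (Y ^ 448)⁻¹ < |lf (log t) u| := by
        by_contra hcon
        exact hnot (hsmall u hu0 hbd (not_lt.1 hcon))
      rw [hlu, abs_neg] at hbig
      have h12 : (Y ^ 448)⁻¹ < 2 * (x / a ^ n) := lt_of_lt_of_le hbig habs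
      have h13 : a ^ n < 2 * x * Y ^ 448 := by
        rw [inv_eq_one_div, div_lt_iff₀ (by positivity)] at h12
        have e : 2 * (x / a ^ n) * Y ^ 448 = (2 * x * Y ^ 448) / a ^ n := by ring
        rw [e, lt_div_iff₀ han] at h12
        linarith
      rw [hKe, ← Real.log_pow]
      exact Real.log_le_log han h13.le
  have hfinal := hcount a b X x K hpρ hqρ hx hxa hxb hK0 hbox
  refine hfinal.trans ?_
  have h15 : log x + K ≤ 1345 * (log x + log X) := by
    rw [hK]
    linarith
  calc C * (log x + K) ≤ C * (1345 * (log x + log X)) := by gcongr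
    _ = 1345 * C * (log x + log X) := by ring

end Pool.Agent.Q47.NC
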